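import Pool.Agent.helper90.DH.SpecI

/-!
# Project d2: row iDRF (the drift)
-/

set_option autoImplicit false

open Filter Topology MeasureTheory
open scoped commutatorElement

namespace Pool.Agent.helper90.DH

open Pool.Agent.helper64.D2

lemma DRF_geo (x : ℝ) (hx : 0 ≤ x) (hx1 : x < 1) (n : ℕ) : ∑ k ∈ Finset.range n, x ^ k ≤ 1 / (1 - x) := by
  have h : ∑ k ∈ Finset.range n, x ^ k = (1 - x ^ n) / (1 - x) := by
    rw [geom_sum_eq (ne_of_lt hx1)]
    have h1 : x - 1 ≠ 0 := by linarith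
    have h2 : 1 - x ≠ 0 := by linarith
    field_simp
    ring
  rw [h]
  apply div_le_div_of_nonneg_right _ (by linarith)
  have : 0 ≤ x ^ n := pow_nonneg hx n
  linarith

lemma DRF_step (hSJM : SJM_stmt) (s0 : ℕ) (h0 : 1000 ≤ s0) (t k : ℕ) : sj s0 t + 16 * k ≤ sj s0 (t + k) := by
  induction k with
  | zero => simp
  | succ k ih =>
    have h1 := (hSJM s0 h0).2.2.2.2.2.2 (t + k)
    rw [← add_assoc]
    omega

/-- **DRF**. -/
theorem DRF (hSJM : SJM_stmt) : DRF_stmt := by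
  intro w0 s0 hs
  have h0 : 1000 ≤ s0 := by
    have : 0 ≤ 3 * w0 * 2 ^ w0 + 10 * w0 := Nat.zero_le _
    omega
  obtain ⟨hj1, hj2, -, -, hj5, -, -⟩ := hSJM s0 h0
  have hamp : ∀ t φ, amp w0 s0 (t + 1) φ = sj s0 (t + 1) + 3 * w0 * φ := by
    intro t φ
    unfold amp
    rw [if_neg (Nat.succ_ne_zero t)]
  have H1 : ∀ t T φ : ℕ, drf w0 s0 t T φ ≤ (15 / 4) / 2 ^ amp w0 s0 (t + 1) φ := by
    intro t T φ
    rcases Nat.lt_or_ge t T with hT | hT
    · obtain ⟨n, rfl⟩ := Nat.exists_eq_add_of_lt hT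
      have h1 : ∀ m : ℕ, drf w0 s0 t (t + m) φ ≤ (7 / 2) / 2 ^ amp w0 s0 (t + 1) φ * ∑ k ∈ Finset.range m, (1 / 16 : ℝ) ^ k := by
        intro m
        induction m with
        | zero => simp [drf]
        | succ m ih =>
          unfold drf at ih ⊢
          rw [← add_assoc, Finset.sum_Ioc_succ_top (by omega), Finset.sum_range_succ, mul_add]
          apply add_le_add ih
          have h2 : amp w0 s0 (t + m + 1) φ ≥ amp w0 s0 (t + 1) φ + 4 * m := by
            rw [hamp, hamp]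
            have := DRF_step hSJM s0 h0 (t + 1) m
            have e : t + 1 + m = t + m + 1 := by ring
            rw [e] at this
            omega
          rw [div_mul_eq_mul_div, div_le_div_iff₀ (by positivity) (by positivity)]
          have h3 : (2 : ℝ) ^ (amp w0 s0 (t + 1) φ + 4 * m) ≤ 2 ^ amp w0 s0 (t + m + 1) φ := pow_le_pow_right₀ (by norm_num) h2
          rw [pow_add, pow_mul] at h3
          have h4 : (1 / 16 : ℝ) ^ m * (2 ^ 4) ^ m = 1 := by
            rw [← mul_pow]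
            norm_num
          have h5 : (0 : ℝ) < (1 / 16 : ℝ) ^ m := by positivity
          calc (7 / 2 : ℝ) * 2 ^ amp w0 s0 (t + 1) φ = 7 / 2 * (1 / 16) ^ m * (2 ^ amp w0 s0 (t + 1) φ * (2 ^ 4) ^ m) := by
                rw [show 7 / 2 * (1 / 16 : ℝ) ^ m * (2 ^ amp w0 s0 (t + 1) φ * (2 ^ 4) ^ m) = 7 / 2 * 2 ^ amp w0 s0 (t + 1) φ * ((1 / 16 : ℝ) ^ m * (2 ^ 4) ^ m) by ring, h4, mul_one]
            _ ≤ 7 / 2 * (1 / 16) ^ m * 2 ^ amp w0 s0 (t + m + 1) φ := mul_le_mul_of_nonneg_left h3 (by positivity)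
      have h6 := h1 (n + 1)
      have h7 := DRF_geo (1 / 16) (by norm_num) (by norm_num) (n + 1)
      rw [← add_assoc] at h6
      refine le_trans h6 ?_
      calc (7 / 2 : ℝ) / 2 ^ amp w0 s0 (t + 1) φ * ∑ k ∈ Finset.range (n + 1), (1 / 16 : ℝ) ^ k
          ≤ (7 / 2 : ℝ) / 2 ^ amp w0 s0 (t + 1) φ * (1 / (1 - 1 / 16)) := mul_le_mul_of_nonneg_left h7 (by positivity)
        _ = (56 / 15) / 2 ^ amp w0 s0 (t + 1) φ := by ring
        _ ≤ (15 / 4) / 2 ^ amp w0 s0 (t + 1) φ := div_le_div_of_nonneg_right (by norm_num) (by positivity)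
    · unfold drf
      rw [Finset.Ioc_eq_empty_of_le hT, Finset.sum_empty]
      positivity
  refine ⟨H1, ?_, ?_, ?_, ?_⟩
  · intro t φ
    have h1 := H1 0 t φ
    rw [hamp] at h1
    have h2 : s0 - w0 + 3 ≤ sj s0 (0 + 1) + 3 * w0 * φ := by
      have h3 := (hSJM s0 h0).2.2.2.2.2.2 0
      have h4 : sj s0 0 = s0 := rfl
      rw [h4] at h3
      have h5 : 0 ≤ 3 * w0 * φ := Nat.zero_le _
      omega
    have h3 : (15 / 4 : ℝ) / 2 ^ (sj s0 (0 + 1) + 3 * w0 * φ) ≤ (1 / 2) / 2 ^ (s0 - w0) := by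
      rw [div_le_div_iff₀ (by positivity) (by positivity)]
      have h4 : (2 : ℝ) ^ (s0 - w0 + 3) ≤ 2 ^ (sj s0 (0 + 1) + 3 * w0 * φ) := pow_le_pow_right₀ (by norm_num) h2
      rw [pow_add] at h4
      have h5 : (0 : ℝ) < 2 ^ (s0 - w0) := by positivity
      nlinarith
    have h4 : (7 / 2 : ℝ) / 2 ^ (s0 - w0) + (1 / 2) / 2 ^ (s0 - w0) = 4 / 2 ^ (s0 - w0) := by ring
    linarith
  · intro T
    unfold gam
    constructor
    · exact Finset.sum_nonneg fun t _ => by positivity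
    · have h1 : ∀ t ∈ Finset.range (T + 1), (1 : ℝ) / 2 ^ (sj s0 t / 16) ≤ 1 / 2 ^ (s0 / 16) * (1 / 2) ^ t := by
        intro t _
        have h2 := DRF_step hSJM s0 h0 0 t
        have h4 : sj s0 0 = s0 := rfl
        rw [h4, zero_add] at h2
        have h5 : s0 / 16 + t ≤ sj s0 t / 16 := by omega
        have h6 : (2 : ℝ) ^ (s0 / 16 + t) ≤ 2 ^ (sj s0 t / 16) := pow_le_pow_right₀ (by norm_num) h5
        calc (1 : ℝ) / 2 ^ (sj s0 t / 16) ≤ 1 / 2 ^ (s0 / 16 + t) := one_div_le_one_div_of_le (by positivity) h6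
          _ = 1 / 2 ^ (s0 / 16) * (1 / 2) ^ t := by
            rw [pow_add, one_div_pow]
            field_simp
      calc ∑ t ∈ Finset.range (T + 1), (1 : ℝ) / 2 ^ (sj s0 t / 16) ≤ ∑ t ∈ Finset.range (T + 1), 1 / 2 ^ (s0 / 16) * (1 / 2 : ℝ) ^ t :=
            Finset.sum_le_sum h1
        _ = 1 / 2 ^ (s0 / 16) * ∑ t ∈ Finset.range (T + 1), (1 / 2 : ℝ) ^ t := by rw [Finset.mul_sum]
        _ ≤ 1 / 2 ^ (s0 / 16) * (1 / (1 - 1 / 2)) := mul_le_mul_of_nonneg_left (DRF_geo (1 / 2) (by norm_num) (by norm_num) _) (by positivity)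
        _ = 2 / 2 ^ (s0 / 16) := by ring
  · intro t T φ htT
    rw [hamp, hamp]
    exact ⟨Nat.le_add_right _ _, Nat.add_le_add_right (hj5 _ _ (by omega)) _⟩
  · intro j φ hφ
    have h1 : amp w0 s0 (j + 2) φ = sj s0 (j + 2) + 3 * w0 * φ := hamp (j + 1) φ
    rw [h1]
    have h2 : sj s0 (j + 2) = sj s0 (j + 1) + sj s0 (j + 1) / 4 := rfl
    have h3 : sj s0 (j + 1) = sj s0 j + sj s0 j / 4 := rfl
    have h4 : 3 * w0 * φ ≤ 3 * w0 * 2 ^ w0 := Nat.mul_le_mul_left _ hφ.le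
    have h5 := hj1 j
    rw [h2, h3]
    generalize 3 * w0 * φ = A at *
    generalize 3 * w0 * 2 ^ w0 = B at *
    omega

end Pool.Agent.helper90.DH
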