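import Pool.Agent.helper90.DH.SpecI

/-!
# Project d2: row iESI (the projection of a piecewise affine function)
-/

set_option autoImplicit false

open Filter Topology MeasureTheory
open scoped commutatorElement

namespace Pool.Agent.helper90.DH

open Pool.Agent.helper64.D2

/-- **ESI**. -/
theorem ESI : ESI_stmt := by
  intro s f hf x
  have h2 : (0 : ℝ) < 2 ^ s := by positivity
  obtain ⟨a, b, hab⟩ := hf (ci s x)
  have hx : x ∈ cell s (ci s x) := by
    refine ⟨?_, ?_⟩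
    · rw [div_le_iff₀ h2]
      unfold ci
      linarith [Int.floor_le ((2 : ℝ) ^ s * x), mul_comm x ((2 : ℝ) ^ s)]
    · rw [lt_div_iff₀ h2]
      unfold ci
      linarith [Int.lt_floor_add_one ((2 : ℝ) ^ s * x), mul_comm x ((2 : ℝ) ^ s)]
  have hmid : mid s x = ((ci s x : ℝ) + 1 / 2) / 2 ^ s := rfl
  unfold Es
  rw [hab x hx, hmid]
  have e1 : ∫ t in cell s (ci s x), f t = ∫ t in cell s (ci s x), (a + b * t) :=
    setIntegral_congr_fun measurableSet_Ico (fun t ht => hab t ht)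
  have e2 : ∫ t in cell s (ci s x), (t - ((ci s x : ℝ) + 1 / 2) / 2 ^ s) * f t = ∫ t in cell s (ci s x), (t - ((ci s x : ℝ) + 1 / 2) / 2 ^ s) * (a + b * t) :=
    setIntegral_congr_fun measurableSet_Ico (fun t ht => by
      show (t - ((ci s x : ℝ) + 1 / 2) / 2 ^ s) * f t = (t - ((ci s x : ℝ) + 1 / 2) / 2 ^ s) * (a + b * t)
      rw [hab t ht])
  rw [e1, e2]
  unfold cell
  generalize hk : (ci s x : ℝ) = k
  have hle : k / 2 ^ s ≤ (k + 1) / 2 ^ s := by
    apply div_le_div_of_nonneg_right _ h2.le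
    linarith
  rw [integral_Ico_eq_integral_Ioc, integral_Ico_eq_integral_Ioc, ← intervalIntegral.integral_of_le hle, ← intervalIntegral.integral_of_le hle]
  have i1 : ∫ t in (k / 2 ^ s)..((k + 1) / 2 ^ s), (a + b * t) = (a * ((k + 1) / 2 ^ s) + b * ((k + 1) / 2 ^ s) ^ 2 / 2) - (a * (k / 2 ^ s) + b * (k / 2 ^ s) ^ 2 / 2) := by
    apply intervalIntegral.integral_eq_sub_of_hasDerivAt (f := fun t => a * t + b * t ^ 2 / 2)
    · intro t _
      have h4 : HasDerivAt (fun t : ℝ => t) 1 t := hasDerivAt_id' t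
      have h5 := (h4.const_mul a).add (((h4.pow 2).const_mul b).div_const 2)
      refine h5.congr_deriv ?_
      push_cast
      ring
    · apply Continuous.intervalIntegrable
      fun_prop
  have i2 : ∫ t in (k / 2 ^ s)..((k + 1) / 2 ^ s), (t - (k + 1 / 2) / 2 ^ s) * (a + b * t) =
      ((a + b * ((k + 1 / 2) / 2 ^ s)) * ((k + 1) / 2 ^ s - (k + 1 / 2) / 2 ^ s) ^ 2 / 2 + b * ((k + 1) / 2 ^ s - (k + 1 / 2) / 2 ^ s) ^ 3 / 3) -
      ((a + b * ((k + 1 / 2) / 2 ^ s)) * (k / 2 ^ s - (k + 1 / 2) / 2 ^ s) ^ 2 / 2 + b * (k / 2 ^ s - (k + 1 / 2) / 2 ^ s) ^ 3 / 3) := by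
    apply intervalIntegral.integral_eq_sub_of_hasDerivAt (f := fun t => (a + b * ((k + 1 / 2) / 2 ^ s)) * (t - (k + 1 / 2) / 2 ^ s) ^ 2 / 2 + b * (t - (k + 1 / 2) / 2 ^ s) ^ 3 / 3)
    · intro t _
      have h4 : HasDerivAt (fun t : ℝ => t - (k + 1 / 2) / 2 ^ s) 1 t := (hasDerivAt_id' t).sub_const _
      have h5 := ((h4.pow 2).const_mul (a + b * ((k + 1 / 2) / 2 ^ s))).div_const 2
      have h6 := ((h4.pow 3).const_mul b).div_const 3
      refine (h5.add h6).congr_deriv ?_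
      push_cast
      ring
    · apply Continuous.intervalIntegrable
      fun_prop
  rw [i1, i2]
  rw [pow_mul' 2 3 s]
  have h3 : (2 : ℝ) ^ s ≠ 0 := h2.ne'
  generalize (2 : ℝ) ^ s = y at *
  field_simp
  ring

end Pool.Agent.helper90.DH
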